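import Mathlib
import Pool.Agent.H.MP_a6acde_co.Num

set_option autoImplicit false

namespace Pool.Agent.Results.MP_a6acde_co.Counter

open Finset Pool.Agent.H.MP_a6acde_co

/-- the graph of the edges of colour `j` -/
def G {n : ℕ} (c : Sym2 (Fin n) → Fin 2) (j : Fin 2) : SimpleGraph (Fin n) :=
  SimpleGraph.fromEdgeSet {e | c e = j}

noncomputable def deg {n : ℕ} (H : SimpleGraph (Fin n)) (v : Fin n) : ℕ := (H.neighborSet v).ncard

/-- every two-colouring of `K_n` has a monochromatic degree-monotone path of order `m` -/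
def Forces (m n : ℕ) : Prop :=
  ∀ c : Sym2 (Fin n) → Fin 2, ∃ (j : Fin 2) (v : Fin m → Fin n), Function.Injective v ∧
    ∀ i i' : Fin m, (i' : ℕ) = i + 1 →
      (G c j).Adj (v i) (v i') ∧ deg (G c j) (v i) ≤ deg (G c j) (v i')

abbrev W (p : ℕ) := Fin (3 * p) × Fin 3 × Fin p

def A (p h : ℕ) [NeZero p] (u v : W p) : Prop :=
  (u.1 = v.1 ∧ (u.2.1 = 2 ↔ v.2.1 = 2)) ∨
  (u.2.1 ≠ 2 ∧ v.2.1 = 2 ∧ y p h u.1 v.1 ≤ (u.2.2 + v.2.2 : Fin p)) ∨
  (v.2.1 ≠ 2 ∧ u.2.1 = 2 ∧ y p h v.1 u.1 ≤ (u.2.2 + v.2.2 : Fin p))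

lemma A_symm {p h : ℕ} [NeZero p] {u v : W p} (a : A p h u v) : A p h v u := by
  rcases a with a | a | a
  · exact Or.inl ⟨a.1.symm, a.2.symm⟩
  · exact Or.inr (Or.inr (by rwa [add_comm]))
  · exact Or.inr (Or.inl (by rwa [add_comm]))

lemma cnt {p : ℕ} [NeZero p] (j : Fin p) (t : ℕ) (ht : t ≤ p) :
    ∑ k : Fin p, (if t ≤ (j + k : Fin p) then 1 else 0) + t = p := by
  rw [show ∑ k : Fin p, (if t ≤ (j + k : Fin p) then 1 else 0) = _ from
    Equiv.sum_comp (Equiv.addLeft j) fun k : Fin p => if t ≤ (k : ℕ) then 1 else 0]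
  have := card_filter_add_card_filter_not (s := univ) fun i : Fin p => (i : ℕ) < t
  rw [Fin.card_filter_val_lt, min_eq_right ht, card_univ, Fintype.card_fin] at this
  simp only [not_lt] at this
  rw [← card_filter]
  omega

open Classical in
noncomputable def D (p h : ℕ) [NeZero p] (u : W p) : ℕ := #{v | A p h u v}

lemma D_eq {p h : ℕ} [NeZero p] (e : 3 * p = 2 * h + 17) (l : 200 ≤ p) (u : W p) :
    (u.2.1 ≠ 2 → D p h u + Ga p h u.1 = 2 * p + 3 * p * p) ∧
    (u.2.1 = 2 → D p h u + 2 * Be p h u.1 = p + 2 * (3 * p * p)) := by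
  classical
  have y1 := fun b c => (y_facts e l b c).1
  have n0 : (0 : Fin 3) ≠ 2 := by decide
  have n1 : (1 : Fin 3) ≠ 2 := by decide
  have s1 : ∑ c : Fin (3 * p), (if u.1 = c then p else 0) = p := by simp
  have s2 : ∑ _c : Fin (3 * p), p = 3 * p * p := by simp
  rw [D, card_filter, Fintype.sum_prod_type, Ga, Be, ← Fin.sum_univ_eq_sum_range,
    ← Fin.sum_univ_eq_sum_range fun b => y p h b u.1]
  constructor
  · intro a
    have : ∀ c : Fin (3 * p), (∑ v : Fin 3 × Fin p, if A p h u (c, v) then 1 else 0) + y p h u.1 c =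
        (if u.1 = c then p else 0) + (if u.1 = c then p else 0) + p := by
      intro c
      have := cnt u.2.2 _ (y1 u.1 c)
      rw [Fintype.sum_prod_type, Fin.sum_univ_three]
      simp only [A, a, n0, n1, ne_eq, not_false_eq_true, false_and, and_false, or_false, iff_self,
        and_true, true_and, false_iff, not_true_eq_false, false_or]
      by_cases d : u.1 = c <;> simp [d] at this ⊢ <;> omega
    rw [← sum_add_distrib, sum_congr rfl fun c _ => this c, sum_add_distrib, sum_add_distrib, s1, s2,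
      two_mul]
  · intro a
    have : ∀ c : Fin (3 * p), (∑ v : Fin 3 × Fin p, if A p h u (c, v) then 1 else 0) +
        2 * y p h c u.1 = (if u.1 = c then p else 0) + (p + p) := by
      intro c
      have := cnt u.2.2 _ (y1 c u.1)
      rw [Fintype.sum_prod_type, Fin.sum_univ_three]
      simp only [A, a, n0, n1, ne_eq, not_false_eq_true, false_and, and_false, or_false, iff_self,
        and_true, true_and, iff_false, not_true_eq_false, false_or]
      by_cases d : u.1 = c <;> simp [d] at this ⊢ <;> omega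
    rw [mul_sum, ← sum_add_distrib, sum_congr rfl fun c _ => this c, sum_add_distrib,
      sum_add_distrib, s1, s2, two_mul]

def R {p : ℕ} (u v : W p) : Prop := (u.1 = v.1 ∧ (u.2.1 = 2 ↔ v.2.1 = 2)) ∨ (u.2.1 ≠ 2 ∧ v.2.1 = 2)

instance {p : ℕ} : IsTrans (W p) R := ⟨fun a b c h k => by
  unfold R at *
  rcases h with h | h <;> rcases k with k | k
  · exact Or.inl ⟨h.1.trans k.1, h.2.trans k.2⟩
  all_goals tauto⟩

lemma red {p h : ℕ} [NeZero p] (e : 3 * p = 2 * h + 17) (l : 200 ≤ p) {u v : W p}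
    (a : A p h u v) (d : D p h u ≤ D p h v) : R u v := by
  rcases a with a | a | a
  · exact Or.inl a
  · exact Or.inr ⟨a.1, a.2.1⟩
  · have k := cross e l v.1 u.1 v.1.2 u.1.2
    have f := (y_facts e l v.1 u.1).2.1
    have := (D_eq e l u).2 a.2.1
    have := (D_eq e l v).1 a.1
    have := (u.2.2 + v.2.2).2
    have := a.2.2
    have := k.2 fun b => by have := f b; omega
    omega

lemma blue {p h : ℕ} [NeZero p] (e : 3 * p = 2 * h + 17) (l : 200 ≤ p) {u v : W p}
    (a : ¬ A p h u v) (d : D p h v ≤ D p h u) : v.1 < u.1 := by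
  have du := D_eq e l u
  have dv := D_eq e l v
  have ne : (u.2.1 = 2 ↔ v.2.1 = 2) → (u.1 : ℕ) ≠ v.1 := fun s q => a (Or.inl ⟨Fin.ext q, s⟩)
  rw [Fin.lt_def]
  by_contra c
  by_cases s : u.2.1 = 2 <;> by_cases t : v.2.1 = 2
  · have := anti (Be_anti e l) (lt_of_le_of_ne (not_lt.1 c) (ne (by tauto))) v.1.2
    have := du.2 s
    have := dv.2 t
    omega
  · have k := cross e l v.1 u.1 v.1.2 u.1.2
    have := du.2 s
    have := dv.1 t
    have nb : ¬ bef h v.1 u.1 := fun b => by have := k.1 b; omega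
    exact a (Or.inr (Or.inr ⟨t, s, ((y_facts e l v.1 u.1).2.2 nb (not_lt.1 c)).le.trans
      (Nat.zero_le _)⟩))
  · have k := cross e l u.1 v.1 u.1.2 v.1.2
    have := du.1 s
    have := dv.2 t
    have := k.2 fun b => c (k.1 b).1
    omega
  · have := anti (Ga_anti e l) (lt_of_le_of_ne (not_lt.1 c) (ne (by tauto))) v.1.2
    have := du.1 s
    have := dv.1 t
    omega

lemma main (p h : ℕ) (e : 3 * p = 2 * h + 17) (l : 200 ≤ p) :
    ¬ Forces (3 * p + 1) ((3 * p) ^ 2) := by
  classical
  have : NeZero p := ⟨by omega⟩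
  intro F
  let f : Fin ((3 * p) ^ 2) ≃ W p := (Fintype.equivFinOfCardEq (by simp [W]; ring)).symm
  let c : Sym2 (Fin ((3 * p) ^ 2)) → Fin 2 := Sym2.lift ⟨fun a b => if A p h (f a) (f b) then 0 else 1,
    fun a b => if_congr ⟨A_symm, A_symm⟩ rfl rfl⟩
  have rf : ∀ u : W p, A p h u u := fun u => Or.inl ⟨rfl, Iff.rfl⟩
  have a0 : ∀ a b, (G c 0).Adj a b ↔ A p h (f a) (f b) ∧ a ≠ b := fun a b => by
    simp [G, c]
  have a1 : ∀ a b, (G c 1).Adj a b ↔ ¬ A p h (f a) (f b) := fun a b => by
    simp only [G, c, SimpleGraph.fromEdgeSet_adj, Set.mem_ofPred_eq, Sym2.lift_mk]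
    exact ⟨fun k z => by simp [z] at k, fun k => ⟨if_neg k, fun z => k (z ▸ rf _)⟩⟩
  have dd : ∀ a, D p h (f a) = #{b | A p h (f a) (f b)} := fun a =>
    (card_equiv f (by simp)).symm
  have d0 : ∀ a, deg (G c 0) a + 1 = D p h (f a) := fun a => by
    rw [dd, ← card_erase_add_one (a := a) (by simp [rf]), deg,
      ← Set.ncard_coe_finset (s := Finset.erase _ _)]
    congr 2
    ext b
    simp [a0, and_comm, eq_comm]
  have d1 : ∀ a, D p h (f a) + deg (G c 1) a = (3 * p) ^ 2 := fun a => by
    have := card_filter_add_card_filter_not (s := univ) fun b => A p h (f a) (f b)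
    rw [card_univ, Fintype.card_fin] at this
    refine Eq.trans ?_ this
    rw [dd, deg, ← Set.ncard_coe_finset (s := {b | ¬ A p h (f a) (f b)})]
    congr 2
    ext b
    simp [a1]
  obtain ⟨j, v, inj, hv⟩ := F c
  have hs := fun i : Fin (3 * p) => hv i.castSucc i.succ (by simp)
  fin_cases j
  · have ch := (Fin.liftFun_iff_succ R (f := fun i => f (v i))).2 fun i => red e l
      ((a0 _ _).1 (hs i).1).1 (by
        have := (hs i).2
        have := d0 (v i.castSucc)
        have := d0 (v i.succ)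
        simp only [Fin.zero_eta] at *
        omega)
    have half : ∀ i i', i < i' → (f (v i)).2 ≠ (f (v i')).2 := fun i i' k z => by
      rcases ch k with r | r
      · exact k.ne (inj (f.injective (Prod.ext r.1 z)))
      · exact r.1 (z ▸ r.2)
    have := Fintype.card_le_of_injective (fun i => (f (v i)).2) fun i i' z => by
      by_contra n
      rcases lt_or_gt_of_ne n with k | k
      · exact half _ _ k z
      · exact half _ _ k z.symm
    simp at this
  · have ch : StrictAnti fun i => (f (v i)).1 := Fin.strictAnti_iff_succ_lt.2 fun i => blue e l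
      ((a1 _ _).1 (hs i).1) (by
        have := (hs i).2
        have := d1 (v i.castSucc)
        have := d1 (v i.succ)
        simp only [Fin.mk_one] at *
        omega)
    have := Fintype.card_le_of_injective _ ch.injective
    simp at this

lemma upper (q n : ℕ) (hn : q ^ 2 + 1 ≤ n) : Forces (q + 1) n := by
  classical
  intro c
  by_contra ne
  let key : Fin n → ℕ ×ₗ Fin n := fun v => toLex (deg (G c 0) v, v)
  have mono : ∀ u v, key u < key v → deg (G c 0) u ≤ deg (G c 0) v := fun u v e =>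
    Prod.Lex.monotone_fst _ _ e.le
  have sm : ∀ v, deg (G c 0) v + deg (G c 1) v = n - 1 := fun v => by
    rw [deg, deg, ← Set.ncard_union_eq (Set.disjoint_left.2 fun w a b =>
      absurd (a.1.symm.trans b.1) (by decide : (0 : Fin 2) ≠ 1))]
    have : (G c 0).neighborSet v ∪ (G c 1).neighborSet v = {v}ᶜ := by
      ext w
      have : ∀ x : Fin 2, x = 0 ∨ x = 1 := by decide
      have := this (c s(v, w))
      simp only [G, Set.mem_union, SimpleGraph.mem_neighborSet, SimpleGraph.fromEdgeSet_adj,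
        Set.mem_ofPred_eq, Set.mem_compl_iff, Set.mem_singleton_iff]
      tauto
    rw [this, Set.ncard_compl]
    simp
  let P : Fin 2 → Fin n → ℕ → Prop := fun j v k => ∃ w : ℕ → Fin n, w k = v ∧
    ∀ i < k, (G c j).Adj (w i) (w (i + 1)) ∧ key (w i) < key (w (i + 1))
  have np : ∀ j v, ¬ P j v q := by
    rintro j v ⟨w, -, hw⟩
    have st : StrictMono fun i : Fin (q + 1) => key (w i) :=
      Fin.strictMono_iff_lt_succ.2 fun i => (hw i i.2).2
    have inj : Function.Injective fun i : Fin (q + 1) => w i := fun a b z =>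
      st.injective (congrArg key z)
    fin_cases j
    · refine ne ⟨0, _, inj, fun i i' z => ?_⟩
      have := hw i (by omega)
      simp only [z]
      exact ⟨this.1, mono _ _ this.2⟩
    · refine ne ⟨1, fun i => w i.rev, inj.comp Fin.rev_injective, fun i i' z => ?_⟩
      have := hw i'.rev (by rw [Fin.val_rev]; omega)
      rw [show (i'.rev : ℕ) + 1 = i.rev by simp only [Fin.val_rev]; omega] at this
      have k := mono _ _ this.2
      have k1 := sm (w i.rev)
      have k2 := sm (w i'.rev)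
      exact ⟨this.1.symm, show deg (G c 1) (w i.rev) ≤ deg (G c 1) (w i'.rev) by omega⟩
  have p0 : ∀ j v, P j v 0 := fun j v => ⟨fun _ => v, rfl, fun i hi => absurd hi (by omega)⟩
  have lt : ∀ j v, Nat.findGreatest (P j v) q < q := fun j v =>
    (Nat.findGreatest_le q).lt_of_ne fun z =>
      np j v (z ▸ Nat.findGreatest_spec (Nat.zero_le q) (p0 j v))
  have st : ∀ u v, key u < key v →
      Nat.findGreatest (P (c s(u, v)) u) q < Nat.findGreatest (P (c s(u, v)) v) q := by
    intro u v k
    obtain ⟨w, w1, w2⟩ := Nat.findGreatest_spec (Nat.zero_le q) (p0 (c s(u, v)) u)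
    refine Nat.le_findGreatest (lt _ u) ⟨Function.update w _ v, Function.update_self .., fun i hi => ?_⟩
    rw [Function.update_of_ne (by omega)]
    rcases (Nat.lt_succ_iff.1 hi).eq_or_lt with z | z
    · rw [z, Function.update_self, w1]
      exact ⟨⟨rfl, fun z => k.ne (congrArg key z)⟩, k⟩
    · rw [Function.update_of_ne (by omega)]
      exact w2 i z
  have := Fintype.card_le_of_injective (fun v (j : Fin 2) => (⟨_, lt j v⟩ : Fin q)) fun u v z => by
    by_contra uv
    rcases lt_or_gt_of_ne (show key u ≠ key v from fun q => uv (congrArg (fun p => (ofLex p).2) q))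
      with l | l
    · exact (st u v l).ne (Fin.ext_iff.1 (congrFun z _))
    · exact (st v u l).ne (Fin.ext_iff.1 (congrFun z _)).symm
  simp at this
  omega

theorem result (k : ℕ) (hk : 100 ≤ k) :
    IsLeast {M | ∀ n, M ≤ n → Forces (6 * k + 4) n} ((6 * k + 3) ^ 2 + 1) := by
  have := main (2 * k + 1) (3 * k - 7) (by omega) (by omega)
  rw [show 3 * (2 * k + 1) = 6 * k + 3 by ring] at this
  exact ⟨upper (6 * k + 3), fun M hM => not_lt.1 fun z => this (hM _ (Nat.lt_succ_iff.1 z))⟩

end Pool.Agent.Results.MP_a6acde_co.Counter
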